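import Pool.Graph.R_seed8.Helper364.EQ.Final

/-!
# Subspaces and quotients of `ℓ_4`: a lower bound which is a power of the dimension

There are finite-dimensional spaces `E_m` of dimension `(m + 2) ^ 16` which are isometric to
subspaces of `ℓ_4 ^ N` and uniformly isomorphic to quotients of `ℓ_4 ^ N`, and such that the norms in
every factorization of the identity of `E_m` through `ℓ_4` grow at least like a fixed power of the
dimension. The `ℓ_4`-sum of any infinitely many of them is isomorphic to a subspace and to a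
quotient of `ℓ_4`, but not to `ℓ_4`.
-/

set_option autoImplicit false

namespace Pool.Agent.Results.MP_dfb345_an.PowerOfDimension

open Pool.EQ
open scoped ENNReal

theorem hn (m : ℕ) : 1 ≤ (m + 2) ^ 4 := Nat.one_le_pow _ _ (by omega)
theorem hm (m : ℕ) : 1 ≤ m + 2 := by omega

/-- the quotient map, with the norm of `XE m` -/
theorem quotE (m : ℕ) : ∃ (K : Type) (_ : Fintype K) (_ : Nonempty K) (q : (K → ℝ) →ₗ[ℝ] XE m),
    (∀ F, ‖q F‖ ^ 4 ≤ 3000 * ∑ k, F k ^ 4) ∧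
      ∀ x, ∃ F, q F = x ∧ ∑ k, F k ^ 4 ≤ 3000 * ‖x‖ ^ 4 := by
  obtain ⟨K, hF, hN, q, hq, hs⟩ := quot (hn m) (hm m)
  refine ⟨K, hF, hN, (q : (K → ℝ) →ₗ[ℝ] (Idx ((m + 2) ^ 4) → ℝ)), fun F => ?_, fun x => ?_⟩
  · rw [XE_norm]
    have h1 := (EN_EN4 (hn m) (m + 2) (q F)).2
    have h2 := hq F
    exact le_trans h1 (by linarith)
  · obtain ⟨F, h1, h2⟩ := hs x
    refine ⟨F, h1, ?_⟩
    rw [XE_norm]
    have h3 := (EN_EN4 (hn m) (m + 2) (x : Idx ((m + 2) ^ 4) → ℝ)).1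
    have h4 : 0 ≤ ‖x‖ ^ 4 := by positivity
    rw [XE_norm] at h4
    have h5 : (1000 : ℝ) * EN (m + 2) (x : Idx ((m + 2) ^ 4) → ℝ) ≤
        3000 * EN4 (m + 2) (x : Idx ((m + 2) ^ 4) → ℝ) := by linarith
    exact le_trans h2 h5

theorem norm_four {K : Type} [Fintype K] (F : PiLp 4 (fun _ : K => ℝ)) :
    ‖F‖ ^ 4 = ∑ k, F k ^ 4 := by
  rw [PiLp.norm_eq_sum (by norm_num)]
  rw [show ((4 : ℝ≥0∞).toReal) = 4 by norm_num]
  rw [← Real.rpow_natCast, ← Real.rpow_mul (by positivity)]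
  norm_num
  apply Finset.sum_congr rfl
  intro k _
  exact Even.pow_abs (by decide) _

/-- the lower bound -/
theorem lower (m : ℕ) (C : ℝ) (J : XE m →ₗ[ℝ] lp (fun _ : ℕ => ℝ) 4)
    (P : lp (fun _ : ℕ => ℝ) 4 →ₗ[ℝ] XE m) (h : ∀ x, P (J x) = x)
    (hJ : ∀ x, ‖J x‖ ≤ C * ‖x‖) (hP : ∀ y, ‖P y‖ ≤ C * ‖y‖) :
    ((m : ℝ) + 2) ^ 16 ≤ 20736 ^ 352 * C ^ 3520 := by
  obtain ⟨x, hx⟩ := exists_ne (0 : XE m)
  have hx' : 0 < ‖x‖ := norm_pos_iff.2 hx
  have hJx : 0 < ‖J x‖ := norm_pos_iff.2 fun h0 => hx (by rw [← h x, h0, map_zero])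
  have hC0 : 0 < C := by
    by_contra hc
    have := hJ x
    have := mul_nonpos_of_nonpos_of_nonneg (not_lt.1 hc) hx'.le
    linarith
  have hC : 1 ≤ C := by
    by_contra hc
    push Not at hc
    have h1 : ‖x‖ ≤ C * (C * ‖x‖) := by
      calc ‖x‖ = ‖P (J x)‖ := by rw [h]
        _ ≤ C * ‖J x‖ := hP _
        _ ≤ C * (C * ‖x‖) := mul_le_mul_of_nonneg_left (hJ x) hC0.le
    have h2 : C * (C * ‖x‖) < ‖x‖ := by
      calc C * (C * ‖x‖) ≤ 1 * (C * ‖x‖) :=
            mul_le_mul_of_nonneg_right hc.le (by positivity)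
        _ = C * ‖x‖ := one_mul _
        _ < 1 * ‖x‖ := mul_lt_mul_of_pos_right hc hx'
        _ = ‖x‖ := one_mul _
    linarith
  have key : Real.log ((m + 2 : ℕ) : ℝ) ≤
      22 * (Real.log (48 * C ^ 4) + 3 * Real.log (3 * C ^ 2) + 4 * Real.log 2) := by
    refine fac (n := (m + 2) ^ 4) (hm m) le_rfl C hC J P h ?_ ?_
    · intro ξ
      have h1 := pow_le_pow_left₀ (norm_nonneg _) (hJ ξ) 4
      rw [mul_pow] at h1
      exact h1.trans (le_of_eq (congrArg (fun t => C ^ 4 * t) (XE_norm m ξ)))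
    · intro y
      have h1 := pow_le_pow_left₀ (norm_nonneg _) (hP y) 4
      rw [mul_pow, XE_norm m] at h1
      exact h1
  have e : 22 * (Real.log (48 * C ^ 4) + 3 * Real.log (3 * C ^ 2) + 4 * Real.log 2) =
      Real.log ((20736 * C ^ 10) ^ 22) := by
    rw [Real.log_pow, Real.log_mul (by norm_num) (by positivity),
      Real.log_mul (x := 3) (by norm_num) (by positivity),
      Real.log_mul (x := 20736) (by norm_num) (by positivity), Real.log_pow, Real.log_pow,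
      Real.log_pow, show (20736 : ℝ) = 48 * (3 ^ 3 * 2 ^ 4) by norm_num,
      Real.log_mul (x := 48) (by norm_num) (by norm_num),
      Real.log_mul (x := 3 ^ 3) (by norm_num) (by norm_num), Real.log_pow, Real.log_pow]
    push_cast
    ring
  rw [e] at key
  have h3 : ((m + 2 : ℕ) : ℝ) ≤ (20736 * C ^ 10) ^ 22 :=
    (Real.log_le_log_iff (by positivity) (by positivity)).1 key
  push_cast at h3
  calc ((m : ℝ) + 2) ^ 16 ≤ ((20736 * C ^ 10) ^ 22) ^ 16 :=
        pow_le_pow_left₀ (by positivity) h3 16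
    _ = 20736 ^ 352 * C ^ 3520 := by
        rw [← pow_mul, mul_pow, ← pow_mul]

theorem quotP (m : ℕ) : ∃ (K : Type) (_ : Fintype K) (q : PiLp 4 (fun _ : K => ℝ) →ₗ[ℝ] XE m),
    (∀ F, ‖q F‖ ≤ 8 * ‖F‖) ∧ ∀ x, ∃ F, q F = x ∧ ‖F‖ ≤ 8 * ‖x‖ := by
  obtain ⟨K, hF, hN, q, hq, hs⟩ := quotE m
  have root : ∀ a b : ℝ, 0 ≤ a → 0 ≤ b → a ^ 4 ≤ 3000 * b ^ 4 → a ≤ 8 * b := by
    intro a b ha hb h
    refine le_of_pow_le_pow_left₀ (n := 4) (by norm_num) (by positivity) ?_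
    have : 0 ≤ b ^ 4 := by positivity
    rw [mul_pow]
    linarith
  refine ⟨K, hF, q ∘ₗ (WithLp.linearEquiv 4 ℝ (K → ℝ)).toLinearMap, fun F => ?_, fun x => ?_⟩
  · refine root _ _ (norm_nonneg _) (norm_nonneg _) ?_
    rw [norm_four]
    exact hq _
  · obtain ⟨F, h1, h2⟩ := hs x
    refine ⟨(WithLp.linearEquiv 4 ℝ (K → ℝ)).symm F, ?_, ?_⟩
    · simpa using h1
    · refine root _ _ (norm_nonneg _) (norm_nonneg _) ?_
      rw [norm_four]
      exact h2

/-- The real Banach space `ℓ_4`. -/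
def L4 : Type := lp (fun _ : ℕ => ℝ) 4

noncomputable instance : NormedAddCommGroup L4 :=
  (lp.normedAddCommGroup : NormedAddCommGroup (lp (fun _ : ℕ => ℝ) 4))

noncomputable instance : NormedSpace ℝ L4 :=
  (lp.instNormedSpace : NormedSpace ℝ (lp (fun _ : ℕ => ℝ) 4))

/-- The finite-dimensional space `ℓ_4 ^ K`. -/
def F4 (K : Type) : Type := PiLp 4 (fun _ : K => ℝ)

noncomputable instance (K : Type) [Fintype K] : NormedAddCommGroup (F4 K) :=
  PiLp.normedAddCommGroup 4 (fun _ : K => ℝ)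

noncomputable instance (K : Type) [Fintype K] : NormedSpace ℝ (F4 K) :=
  PiLp.normedSpace 4 ℝ (fun _ : K => ℝ)

/-- `E` is isometric to a subspace of some `ℓ_4 ^ K`. -/
def IsometricSubspace (E : Type) [NormedAddCommGroup E] [NormedSpace ℝ E] : Prop :=
  ∃ (K : Type) (_ : Fintype K), Nonempty (E →ₗᵢ[ℝ] F4 K)

/-- `E` is the image of some `ℓ_4 ^ K` under a linear map of norm at most `c`, with preimages of
norm at most `c ‖x‖`. -/
def QuotientWith (c : ℝ) (E : Type) [NormedAddCommGroup E] [NormedSpace ℝ E] : Prop :=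
  ∃ (K : Type) (_ : Fintype K) (q : F4 K →ₗ[ℝ] E),
    (∀ F, ‖q F‖ ≤ c * ‖F‖) ∧ ∀ x, ∃ F, q F = x ∧ ‖F‖ ≤ c * ‖x‖

/-- The identity of `E` is `P ∘ J` for linear maps `J : E → ℓ_4` and `P : ℓ_4 → E` of norm at
most `C`. -/
def FactorsWith (C : ℝ) (E : Type) [NormedAddCommGroup E] [NormedSpace ℝ E] : Prop :=
  ∃ (J : E →ₗ[ℝ] L4) (P : L4 →ₗ[ℝ] E),
    (∀ x, P (J x) = x) ∧ (∀ x, ‖J x‖ ≤ C * ‖x‖) ∧ ∀ y, ‖P y‖ ≤ C * ‖y‖

/-- `X` is isomorphic to a closed subspace of `ℓ_4`. -/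
def IsoSubspace (X : Type) [NormedAddCommGroup X] [NormedSpace ℝ X] : Prop :=
  ∃ S : Submodule ℝ L4, Nonempty (X ≃L[ℝ] S)

/-- `X` is the image of `ℓ_4` under a bounded linear map. -/
def IsoQuotient (X : Type) [NormedAddCommGroup X] [NormedSpace ℝ X] : Prop :=
  ∃ T : L4 →L[ℝ] X, Function.Surjective T

/-- `X` is an infinite-dimensional Banach space which is isomorphic to a closed subspace of `ℓ_4`
and is a bounded linear image of `ℓ_4`, but is not isomorphic to `ℓ_4`. -/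
def CounterExample (X : Type) [NormedAddCommGroup X] [NormedSpace ℝ X] : Prop :=
  ¬ FiniteDimensional ℝ X ∧ CompleteSpace X ∧ IsoSubspace X ∧ IsoQuotient X ∧
    ¬ Nonempty (X ≃L[ℝ] L4)

/-- There are real normed spaces `E m` of dimension `(m + 2) ^ 16`, each isometric to a subspace of
some `ℓ_4 ^ K`, and each the image of some `ℓ_4 ^ K` under a linear map of norm at most `8`
such that every `x` has a preimage of norm at most `8 ‖x‖`, with the following property: if the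
identity of `E m` is `P ∘ J` with linear maps `J : E m → ℓ_4`, `P : ℓ_4 → E m` of norm at most `C`,
then `dim (E m) ≤ 20736 ^ 352 * C ^ 3520`. For every strictly increasing `g`, the `ℓ_4`-sum of the
spaces `E (g m)` is an infinite-dimensional space which is isomorphic to a closed subspace of `ℓ_4`
and is a bounded linear image of `ℓ_4`, but it is not isomorphic to `ℓ_4`. -/
theorem result : ∃ (E : ℕ → Type) (_ : ∀ m, NormedAddCommGroup (E m))
    (_ : ∀ m, NormedSpace ℝ (E m)),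
    (∀ m, FiniteDimensional ℝ (E m) ∧ Module.finrank ℝ (E m) = (m + 2) ^ 16 ∧
      IsometricSubspace (E m) ∧ QuotientWith 8 (E m) ∧
      ∀ C, FactorsWith C (E m) →
        (Module.finrank ℝ (E m) : ℝ) ≤ 20736 ^ 352 * C ^ 3520) ∧
    ∀ g : ℕ → ℕ, StrictMono g → CounterExample (lp (fun m => E (g m)) 4) := by
  have fr : ∀ m, Module.finrank ℝ (XE m) = (m + 2) ^ 16 := by
    intro m
    have h1 : Module.finrank ℝ (Idx ((m + 2) ^ 4) → ℝ) = (m + 2) ^ 16 := by
      rw [Module.finrank_fintype_fun_eq_card, Fintype.card_fun, Fintype.card_fin,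
        Fintype.card_fin, ← pow_mul]
    exact h1
  refine ⟨XE, inferInstance, inferInstance, fun m => ⟨inferInstance, fr m, ?_, ?_, ?_⟩,
    fun g hg => ?_⟩
  · exact ⟨KX ((m + 2) ^ 4), inferInstance, ⟨⟨jE m, fun x => rfl⟩⟩⟩
  · exact quotP m
  · rintro C ⟨J, P, h, hJ, hP⟩
    rw [fr]
    push_cast
    exact lower m C J P h hJ hP
  · choose K hF hN q hq hs using quotE
    refine ⟨glue_inf, inferInstance, glue_S (XX := fun m => XE (g m))
      (fun m => KX ((g m + 2) ^ 4))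
      (fun m => (jmap ((g m + 2) ^ 4) (g m + 2) : (Idx ((g m + 2) ^ 4) → ℝ) →ₗ[ℝ] _))
      (fun m x => (jmap_norm _ _ _).trans (XE_norm (g m) x).symm),
      glue_Q (XX := fun m => XE (g m)) (fun m => K (g m)) (fun m => q (g m)) 3000
        (fun m => hq (g m)) (fun m => hs (g m)), ?_⟩
    rintro ⟨Φ⟩
    obtain ⟨C, hC, hfac⟩ := glue_fac Φ
    have key : ∀ m : ℕ, (m : ℝ) ≤ 20736 ^ 352 * C ^ 3520 := by
      intro m
      obtain ⟨J, P, hPJ, hJ, hP⟩ := hfac m
      have h1 := lower (g m) C J P hPJ hJ hP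
      have h2 : (m : ℝ) ≤ g m := by exact_mod_cast hg.le_apply
      have h3 : (g m : ℝ) + 2 ≤ ((g m : ℝ) + 2) ^ 16 := by
        refine le_self_pow₀ ?_ (by norm_num)
        have : (0 : ℝ) ≤ g m := Nat.cast_nonneg _
        linarith
      linarith
    obtain ⟨m, hm⟩ := exists_nat_gt ((20736 : ℝ) ^ 352 * C ^ 3520)
    exact absurd (key m) (not_le.2 hm)

end Pool.Agent.Results.MP_dfb345_an.PowerOfDimension
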